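import Mathlib
import Pool.Agent.Run7.h436.CycleCover

namespace Pool.Agent.Results.MP_359994_co.FourColourDisproof

open Finset

/-- The edges of the complete `k`-graph on the vertex set `[n]`: all `k`-element sets of
vertices. -/
abbrev Edge (n k : ℕ) : Type := {e : Finset (Fin n) // e.card = k}

/-- `(X, F)` is a Berge-cycle of the complete `k`-graph on `[n]` with core `X` and edge set `F`:
a single vertex without edges, or `X = {u, v}` and `F = {e}` with `u, v ∈ e`, or, for some
`ℓ ≥ 2`, `ℓ` distinct vertices `v i` and `ℓ` distinct edges `e i`, indexed by the integers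
modulo `ℓ`, such that `e i` contains `v i` and `v (i + 1)`. -/
def IsBergeCycle {n k : ℕ} (X : Finset (Fin n)) (F : Finset (Edge n k)) : Prop :=
  (∃ v : Fin n, X = {v} ∧ F = ∅) ∨
  (∃ (u v : Fin n) (e : Edge n k), u ∈ e.1 ∧ v ∈ e.1 ∧ X = {u, v} ∧ F = {e}) ∨
  ∃ ℓ : ℕ, 2 ≤ ℓ ∧ ∃ (v : ZMod ℓ → Fin n) (e : ZMod ℓ → Edge n k),
    Function.Injective v ∧ Function.Injective e ∧
    (∀ i, v i ∈ (e i).1 ∧ v (i + 1) ∈ (e i).1) ∧
    (X : Set (Fin n)) = Set.range v ∧ (F : Set (Edge n k)) = Set.range e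

/-- For the edge-colouring `φ` of the complete `k`-graph on `[n]` there are at most `s`
monochromatic Berge-cycles with pairwise disjoint cores whose union contains all but at most
`c` vertices. -/
def CoveredUpTo {n k r : ℕ} (φ : Edge n k → Fin r) (s c : ℕ) : Prop :=
  ∃ (m : ℕ) (X : Fin m → Finset (Fin n)) (F : Fin m → Finset (Edge n k)), m ≤ s ∧
    (∀ j, IsBergeCycle (X j) (F j)) ∧
    (∀ j, ∀ e ∈ F j, ∀ e' ∈ F j, φ e = φ e') ∧
    (∀ i j, i ≠ j → Disjoint (X i) (X j)) ∧
    (univ \ univ.biUnion X).card ≤ c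

/-- The statement asked about in Q1. -/
def Q1 : Prop :=
  ∀ s k : ℕ, 1 ≤ s → 2 ≤ k → ∃ c : ℕ, ∀ (n : ℕ) (φ : Edge n k → Fin (s * (k - 1))),
    CoveredUpTo φ s c

theorem monoCyc_of_bergeCycle {n s : ℕ} (col : Fin n → Fin n → Fin s)
    (φ : Edge n 2 → Fin s)
    (hφ : ∀ (x y : Fin n) (h : x ≠ y), φ ⟨{x, y}, Finset.card_pair h⟩ = col x y)
    (hsymm : ∀ x y, col x y = col y x)
    {X : Finset (Fin n)} {F : Finset (Edge n 2)} (hc : IsBergeCycle X F)
    (hm : ∀ e ∈ F, ∀ e' ∈ F, φ e = φ e') : Run7.h436.MonoCyc col X := by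
  rcases hc with ⟨v, rfl, -⟩ | ⟨u, v, e, -, -, rfl, -⟩ | ⟨ℓ, hℓ, v, e, hv, he, hmem, hX, hF⟩
  · exact Or.inl (by simp)
  · by_cases huv : u = v
    · exact Or.inl (by simp [huv])
    · right
      refine ⟨col u v, 2, fun i => if i % 2 = 0 then u else v, by norm_num, ?_, by simp, ?_, ?_⟩
      · intro i hi j hj hij
        rw [Set.mem_Iio] at hi hj
        interval_cases i <;> interval_cases j <;> simp_all
      · ext x
        simp only [Finset.mem_insert, Finset.mem_singleton, Finset.mem_image, Finset.mem_range]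
        constructor
        · rintro (rfl | rfl)
          · exact ⟨0, by norm_num, by simp⟩
          · exact ⟨1, by norm_num, by simp⟩
        · rintro ⟨i, hi, rfl⟩
          interval_cases i <;> simp
      · intro i hi
        interval_cases i
        · simp
        · simp [hsymm v u]
  · right
    have : NeZero ℓ := ⟨by omega⟩
    have hinj : Set.InjOn (fun i : ℕ => v (i : ZMod ℓ)) (Set.Iio ℓ) := by
      intro i hi j hj hij
      rw [Set.mem_Iio] at hi hj
      have := hv hij
      rw [ZMod.natCast_eq_natCast_iff] at this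
      exact Nat.ModEq.eq_of_lt_of_lt this hi hj
    have hne : ∀ i : ZMod ℓ, v i ≠ v (i + 1) := by
      intro i h
      have h1 := hv h
      have h2 : (1 : ZMod ℓ) = 0 := by
        have := congrArg (fun z => z - i) h1
        simpa using this.symm
      have h3 : ((1 : ℕ) : ZMod ℓ) = ((0 : ℕ) : ZMod ℓ) := by simpa using h2
      rw [ZMod.natCast_eq_natCast_iff] at h3
      have := Nat.ModEq.eq_of_lt_of_lt h3 (by omega) (by omega)
      omega
    have hedge : ∀ i : ZMod ℓ, e i = ⟨{v i, v (i + 1)}, Finset.card_pair (hne i)⟩ := by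
      intro i
      apply Subtype.ext
      symm
      apply Finset.eq_of_subset_of_card_le
      · intro x hx
        rw [Finset.mem_insert, Finset.mem_singleton] at hx
        rcases hx with rfl | rfl
        · exact (hmem i).1
        · exact (hmem i).2
      · rw [(e i).2, Finset.card_pair (hne i)]
    have hcol : ∀ i : ZMod ℓ, col (v i) (v (i + 1)) = φ (e 0) := by
      intro i
      rw [← hφ _ _ (hne i), ← hedge i]
      refine hm _ ?_ _ ?_
      · rw [← Finset.mem_coe, hF]; exact ⟨i, rfl⟩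
      · rw [← Finset.mem_coe, hF]; exact ⟨0, rfl⟩
    refine ⟨φ (e 0), ℓ, fun i : ℕ => v (i : ZMod ℓ), by omega, hinj, by simp, ?_, ?_⟩
    · ext x
      rw [← Finset.mem_coe, hX]
      simp only [Set.mem_range, Finset.mem_image, Finset.mem_range]
      constructor
      · rintro ⟨i, rfl⟩
        exact ⟨i.val, ZMod.val_lt i, by rw [ZMod.natCast_zmod_val]⟩
      · rintro ⟨i, -, rfl⟩
        exact ⟨(i : ZMod ℓ), rfl⟩
    · intro i _
      have := hcol (i : ZMod ℓ)
      simpa using this

/-- **Disproof for graphs.**  For `k = 2` and every `s ≥ 4` there is `ε > 0` such that for all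
large `n` some colouring of the edges of the complete graph on `[n]` with `s = s * (2 - 1)`
colours has the property that every family of at most `s` monochromatic cycles with
pairwise disjoint vertex sets leaves at least `ε * n` vertices uncovered. -/
theorem result (s : ℕ) (hs : 4 ≤ s) : ∃ ε : ℝ, 0 < ε ∧ ∃ n₀ : ℕ, ∀ n : ℕ, n₀ ≤ n →
    ∃ φ : Edge n 2 → Fin (s * (2 - 1)), ∀ c : ℕ, CoveredUpTo φ s c → ε * n ≤ c := by
  obtain ⟨W, hW, hcol⟩ := Run7.h436.exists_colouring s hs
  have hWr : (0 : ℝ) < W := by exact_mod_cast hW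
  refine ⟨1 / (2 * W), by positivity, 2 * W * (W + s + 1), fun n hn => ?_⟩
  obtain ⟨col, hsymm, hbad⟩ := hcol n
  have : Nonempty (Fin s) := ⟨⟨0, by omega⟩⟩
  obtain ⟨χ, hχ⟩ := Run7.h436.exists_pair_colouring col hsymm
  rw [show s * (2 - 1) = s by omega]
  refine ⟨fun e => χ e.1, ?_⟩
  rintro c ⟨m, X, F, hm, hX, hmono, hd, hc⟩
  have h1 := hbad m X hm (fun j => monoCyc_of_bergeCycle col (fun e => χ e.1)
    (fun x y h => hχ x y h) hsymm (hX j) (hmono j)) hd
  -- arithmetic
  have h2 : n / W ≤ c + W + s := by omega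
  have h3 : (n : ℝ) < W * (c + W + s + 1) := by
    have h4 : n < W * (n / W + 1) := by
      have := Nat.lt_mul_div_succ n hW
      exact this
    have h5 : n < W * (c + W + s + 1) :=
      lt_of_lt_of_le h4 (Nat.mul_le_mul_left W (by omega))
    exact_mod_cast h5
  have h6 : (2 : ℝ) * W * (W + s + 1) ≤ n := by exact_mod_cast hn
  rw [div_mul_eq_mul_div, one_mul, div_le_iff₀ (by positivity)]
  nlinarith

/-- In particular the statement of Q1 is false. -/
theorem not_Q1 : ¬ Q1 := by
  intro h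
  obtain ⟨c, hc⟩ := h 4 2 (by norm_num) le_rfl
  obtain ⟨ε, hε, n₀, hn⟩ := result 4 le_rfl
  obtain ⟨N, hN⟩ := exists_nat_gt ((c : ℝ) / ε)
  obtain ⟨φ, hφ⟩ := hn (max n₀ N) (le_max_left _ _)
  have h1 := hφ c (hc _ φ)
  have h2 : (N : ℝ) ≤ ((max n₀ N : ℕ) : ℝ) := by exact_mod_cast le_max_right _ _
  rw [div_lt_iff₀ hε] at hN
  nlinarith

end Pool.Agent.Results.MP_359994_co.FourColourDisproof
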